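import Mathlib
import Pool.Agent.Q166.RBStab

/-!
# MP_3ac9ea_co: every coefficient of `RB_n(1221; q)` is eventually constant
-/

set_option autoImplicit false

open scoped Classical

namespace Pool.Agent.Results.MP_3ac9ea_co.Stabilization

/-- The word `w` of length `n` is a restricted growth function: positive letters, first letter `1`,
and every other letter is at most `1` plus the maximum of the preceding letters. -/
def IsRGF {n : ℕ} (w : Fin n → ℕ) : Prop :=
  (∀ i, 1 ≤ w i) ∧ (∀ i : Fin n, i.val = 0 → w i = 1) ∧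
    ∀ i : Fin n, 0 < i.val → w i ≤ 1 + (Finset.univ.filter (· < i)).sup w

/-- `w` avoids 1221: no indices `a < b < c < d` with `w a = w d < w b = w c`. -/
def Avoids1221 {n : ℕ} (w : Fin n → ℕ) : Prop :=
  ¬ ∃ a b c d : Fin n, a < b ∧ b < c ∧ c < d ∧ w a = w d ∧ w d < w b ∧ w b = w c

/-- `rb(w_j)`: the number of distinct values `x > w j` occurring to the right of position `j`. -/
def rbAt {n : ℕ} (w : Fin n → ℕ) (j : Fin n) : ℕ :=
  ((Finset.univ.filter (fun i => j < i ∧ w j < w i)).image w).card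

/-- `rb(w)`, the sum of the `rb(w_j)`. -/
def rb {n : ℕ} (w : Fin n → ℕ) : ℕ := ∑ j, rbAt w j

/-- `R_n(1221)` (the letters of a restricted growth function of length `n` are at most `n`). -/
noncomputable def R1221 (n : ℕ) : Finset (Fin n → ℕ) :=
  (Fintype.piFinset (fun _ : Fin n => Finset.Icc 1 n)).filter
    (fun w => IsRGF w ∧ Avoids1221 w)

/-- The polynomial `RB_n(1221; q)`. -/
noncomputable def RB (n : ℕ) : Polynomial ℕ := ∑ w ∈ R1221 n, Polynomial.X ^ rb w

theorem isRGF_iff {n : ℕ} (w : Fin n → ℕ) : IsRGF w ↔ Q166.RBStab.RG w := by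
  constructor
  · rintro ⟨h1, h2, h3⟩ i
    refine ⟨h1 i, ?_⟩
    rcases Nat.eq_zero_or_pos i.val with h | h
    · exact Or.inl (h2 i h)
    · right
      have hne : (Finset.univ.filter (· < i)).Nonempty :=
        ⟨⟨0, by omega⟩, Finset.mem_filter.2 ⟨Finset.mem_univ _, h⟩⟩
      obtain ⟨j, hj, hj'⟩ := Finset.exists_mem_eq_sup _ hne w
      have := h3 i h
      rw [hj'] at this
      refine ⟨j, by simpa using hj, by omega⟩
  · intro h
    refine ⟨fun i => (h i).1, ?_, ?_⟩
    · intro i hi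
      rcases (h i).2 with h' | ⟨j, hj, _⟩
      · exact h'
      · rw [Fin.lt_def] at hj; omega
    · intro i _
      rcases (h i).2 with h' | ⟨j, hj, h'⟩
      · omega
      · have : w j ≤ (Finset.univ.filter (· < i)).sup w := Finset.le_sup (by simpa using hj)
        omega

theorem avoids_iff {n : ℕ} (w : Fin n → ℕ) : Avoids1221 w ↔ Q166.RBStab.Avoids w := by
  unfold Avoids1221 Q166.RBStab.Avoids
  apply not_congr
  constructor
  · rintro ⟨a, b, c, d, h1, h2, h3, h4, h5, h6⟩
    exact ⟨a, b, c, d, h1, h2, h3, h4, h6, by omega⟩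
  · rintro ⟨a, b, c, d, h1, h2, h3, h4, h5, h6⟩
    exact ⟨a, b, c, d, h1, h2, h3, h4, by omega, h5⟩

theorem mem_R1221 {n : ℕ} (w : Fin n → ℕ) : w ∈ R1221 n ↔ IsRGF w ∧ Avoids1221 w := by
  unfold R1221
  rw [Finset.mem_filter, Fintype.mem_piFinset]
  constructor
  · exact fun h => h.2
  · intro h
    refine ⟨fun i => ?_, h⟩
    have h1 := (isRGF_iff w).1 h.1
    rw [Finset.mem_Icc]
    exact ⟨(h1 i).1, Q166.RBStab.RG_le h1 i⟩

theorem coeff_RB (n k : ℕ) :
    (RB n).coeff k = ((R1221 n).filter (fun w => rb w = k)).card := by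
  unfold RB
  rw [Polynomial.finsetSum_coeff, Finset.card_filter]
  apply Finset.sum_congr rfl
  intro w _
  rw [Polynomial.coeff_X_pow]
  simp [eq_comm]

theorem step (k n : ℕ) (hn : 2 * k + 3 ≤ n + 2) :
    (RB (n + 2)).coeff k = (RB (n + 1)).coeff k := by
  rw [coeff_RB, coeff_RB]
  symm
  apply Finset.card_bij (fun w _ => Q166.RBStab.ext w)
  · intro w hw
    rw [Finset.mem_filter, mem_R1221, isRGF_iff, avoids_iff] at hw ⊢
    refine ⟨⟨(Q166.RBStab.RG_ext w).2 hw.1.1, (Q166.RBStab.Avoids_ext w).2 hw.1.2⟩, ?_⟩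
    rw [← hw.2]
    exact Q166.RBStab.rb_ext w
  · intro w _ w' _ h
    exact Q166.RBStab.ext_injective h
  · intro w hw
    rw [Finset.mem_filter, mem_R1221, isRGF_iff, avoids_iff] at hw
    have hk : Q166.RBStab.rb w = k := hw.2
    obtain ⟨w', rfl⟩ := Q166.RBStab.ext_surj
      (Q166.RBStab.last_two hw.1.1 hw.1.2 (by rw [hk]; exact hn))
    refine ⟨w', ?_, rfl⟩
    rw [Finset.mem_filter, mem_R1221, isRGF_iff, avoids_iff]
    refine ⟨⟨(Q166.RBStab.RG_ext w').1 hw.1.1, (Q166.RBStab.Avoids_ext w').1 hw.1.2⟩, ?_⟩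
    rw [← hk]
    exact (Q166.RBStab.rb_ext w').symm

/-- The coefficient of `q ^ k` in `RB_n(1221; q)` has the same value for all `n ≥ 2 k + 2`; so every
coefficient is eventually constant. -/
theorem result : (∀ (n : ℕ) (w : Fin n → ℕ), w ∈ R1221 n ↔ IsRGF w ∧ Avoids1221 w) ∧
    ∀ k n : ℕ, 2 * k + 2 ≤ n → (RB n).coeff k = (RB (2 * k + 2)).coeff k := by
  refine ⟨fun n w => mem_R1221 w, ?_⟩
  intro k n hn
  induction n, hn using Nat.le_induction with
  | base => rfl
  | succ n hn ih =>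
    rw [← ih]
    obtain ⟨m, rfl⟩ : ∃ m, n = m + 1 := ⟨n - 1, by omega⟩
    exact step k m (by omega)

end Pool.Agent.Results.MP_3ac9ea_co.Stabilization
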